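import Pool.Agent.Helper86.QA.St1

/-!
# Project QD part A, module CHV: Moebius transformations of the plane
-/

set_option autoImplicit false

open MeasureTheory Matrix Set Topology
open scoped ENNReal ComplexConjugate

namespace Pool.Agent.Helper94.QA

open Pool.Agent.Helper86.QA

private lemma chv_det (g : SL) : g 0 0 * g 1 1 - g 0 1 * g 1 0 = 1 := by
  have h := g.2
  rw [Matrix.det_fin_two] at h
  exact h

private lemma chv_mul (g h : SL) (i j : Fin 2) :
    (g * h) i j = g i 0 * h 0 j + g i 1 * h 1 j := by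
  rw [Matrix.SpecialLinearGroup.coe_mul, Matrix.mul_apply, Fin.sum_univ_two]

private lemma chv_sub (g : SL) (ξ η : ℂ) (h1 : g 1 0 * ξ + g 1 1 ≠ 0)
    (h2 : g 1 0 * η + g 1 1 ≠ 0) :
    mb g ξ - mb g η = (ξ - η) / ((g 1 0 * ξ + g 1 1) * (g 1 0 * η + g 1 1)) := by
  have hd := chv_det g
  unfold mb
  rw [div_sub_div _ _ h1 h2]
  congr 1
  linear_combination (ξ - η) * hd

private lemma chv_inj (g : SL) : InjOn (mb g) {ξ : ℂ | g 1 0 * ξ + g 1 1 ≠ 0} := by
  intro ξ h1 η h2 h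
  have h3 := chv_sub g ξ η h1 h2
  rw [h, sub_self] at h3
  have h4 := div_eq_zero_iff.1 h3.symm
  rcases h4 with h4 | h4
  · exact sub_eq_zero.1 h4
  · exact absurd h4 (mul_ne_zero h1 h2)

private lemma chv_img (g : SL) :
    mb g '' {ξ : ℂ | g 1 0 * ξ + g 1 1 ≠ 0} = {η : ℂ | g 0 0 - g 1 0 * η ≠ 0} := by
  have hd := chv_det g
  ext η
  constructor
  · rintro ⟨ξ, hξ, rfl⟩
    have hξ' : g 1 0 * ξ + g 1 1 ≠ 0 := hξ
    show g 0 0 - g 1 0 * mb g ξ ≠ 0
    have h : g 0 0 - g 1 0 * mb g ξ = 1 / (g 1 0 * ξ + g 1 1) := by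
      unfold mb
      rw [eq_div_iff hξ', sub_mul, mul_assoc, div_mul_cancel₀ _ hξ']
      linear_combination hd
    rw [h]
    exact one_div_ne_zero hξ'
  · intro hη
    have hη' : g 0 0 - g 1 0 * η ≠ 0 := hη
    have h : g 1 0 * ((g 1 1 * η - g 0 1) / (g 0 0 - g 1 0 * η)) + g 1 1
        = 1 / (g 0 0 - g 1 0 * η) := by
      rw [eq_div_iff hη', add_mul, mul_assoc, div_mul_cancel₀ _ hη']
      linear_combination hd
    have h' : g 0 0 * ((g 1 1 * η - g 0 1) / (g 0 0 - g 1 0 * η)) + g 0 1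
        = η / (g 0 0 - g 1 0 * η) := by
      rw [eq_div_iff hη', add_mul, mul_assoc, div_mul_cancel₀ _ hη']
      linear_combination η * hd
    refine ⟨(g 1 1 * η - g 0 1) / (g 0 0 - g 1 0 * η), ?_, ?_⟩
    · show g 1 0 * ((g 1 1 * η - g 0 1) / (g 0 0 - g 1 0 * η)) + g 1 1 ≠ 0
      rw [h]
      exact one_div_ne_zero hη'
    · unfold mb
      rw [h, h', div_div_div_cancel_right₀ hη', div_one]

private lemma chv_null (u v : ℂ) (h : u ≠ 0 ∨ v ≠ 0) :
    ∀ᵐ ξ : ℂ, ξ ∈ {ξ : ℂ | u * ξ + v ≠ 0} := by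
  rw [ae_iff]
  apply Set.Subsingleton.measure_zero
  intro x hx y hy
  have hx' : u * x + v = 0 := by simpa using hx
  have hy' : u * y + v = 0 := by simpa using hy
  have h3 : u * (x - y) = 0 := by linear_combination hx' - hy'
  rcases mul_eq_zero.1 h3 with h4 | h4
  · exfalso
    rw [h4, zero_mul, zero_add] at hx'
    rcases h with h | h
    · exact h h4
    · exact h hx'
  · exact sub_eq_zero.1 h4

private lemma chv_det2 (w : ℂ) :
    ((ContinuousLinearMap.toSpanSingleton ℂ w).restrictScalars ℝ : ℂ →L[ℝ] ℂ).det = ‖w‖ ^ 2 := by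
  simp [ContinuousLinearMap.det, LinearMap.det_restrictScalars,
      Algebra.norm_complex_eq, Complex.normSq_eq_norm_sq]

private lemma chv_deriv (g : SL) (ξ : ℂ) (h : g 1 0 * ξ + g 1 1 ≠ 0) :
    HasDerivAt (mb g) (1 / (g 1 0 * ξ + g 1 1) ^ 2) ξ := by
  have hd := chv_det g
  have h1 : HasDerivAt (fun ξ : ℂ => g 0 0 * ξ + g 0 1) (g 0 0) ξ := by
    simpa using ((hasDerivAt_id ξ).const_mul (g 0 0)).add_const (g 0 1)
  have h2 : HasDerivAt (fun ξ : ℂ => g 1 0 * ξ + g 1 1) (g 1 0) ξ := by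
    simpa using ((hasDerivAt_id ξ).const_mul (g 1 0)).add_const (g 1 1)
  have h3 := h1.div h2 h
  have h4 : (g 0 0 * (g 1 0 * ξ + g 1 1) - (g 0 0 * ξ + g 0 1) * g 1 0) /
      (g 1 0 * ξ + g 1 1) ^ 2 = 1 / (g 1 0 * ξ + g 1 1) ^ 2 := by
    congr 1
    linear_combination hd
  rw [h4] at h3
  exact h3

theorem hCHV : StCHV := by
  refine ⟨?_, ?_, chv_sub, ?_, ?_⟩
  · intro g f _
    have hd := chv_det g
    have hS : ∀ᵐ ξ : ℂ, ξ ∈ {ξ : ℂ | g 1 0 * ξ + g 1 1 ≠ 0} := by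
      apply chv_null
      by_contra h
      push Not at h
      rw [h.1, h.2] at hd
      simp at hd
    have hT : ∀ᵐ ξ : ℂ, ξ ∈ {η : ℂ | g 0 0 - g 1 0 * η ≠ 0} := by
      have h := chv_null (-g 1 0) (g 0 0) (by
        by_contra h
        push Not at h
        rw [neg_eq_zero] at h
        rw [h.1, h.2] at hd
        simp at hd)
      filter_upwards [h] with ξ hξ
      have hξ' : -g 1 0 * ξ + g 0 0 ≠ 0 := hξ
      show g 0 0 - g 1 0 * ξ ≠ 0
      intro h0
      apply hξ'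
      linear_combination h0
    have hSm : MeasurableSet {ξ : ℂ | g 1 0 * ξ + g 1 1 ≠ 0} := by
      have : IsOpen {ξ : ℂ | g 1 0 * ξ + g 1 1 ≠ 0} :=
        isOpen_ne_fun (by fun_prop) continuous_const
      exact this.measurableSet
    have key := lintegral_image_eq_lintegral_abs_det_fderiv_mul volume hSm
      (fun x hx => ((chv_deriv g x hx).hasFDerivAt.restrictScalars ℝ).hasFDerivWithinAt)
      (chv_inj g) f
    rw [chv_img, Measure.restrict_eq_self_of_ae_mem hS, Measure.restrict_eq_self_of_ae_mem hT]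
      at key
    rw [key]
    apply lintegral_congr
    intro ξ
    have h5 : (ContinuousLinearMap.restrictScalars ℝ
        (ContinuousLinearMap.toSpanSingleton ℂ (1 / (g 1 0 * ξ + g 1 1) ^ 2) : ℂ →L[ℂ] ℂ)).det
        = ‖1 / (g 1 0 * ξ + g 1 1) ^ 2‖ ^ 2 := chv_det2 _
    have h6 : |(ContinuousLinearMap.restrictScalars ℝ
        (ContinuousLinearMap.toSpanSingleton ℂ (1 / (g 1 0 * ξ + g 1 1) ^ 2) : ℂ →L[ℂ] ℂ)).det|
        = 1 / ‖g 1 0 * ξ + g 1 1‖ ^ 4 := by
      rw [h5, norm_div, norm_one, norm_pow, abs_of_nonneg (by positivity), div_pow, one_pow]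
      ring
    rw [mul_comm]
    exact congrArg (fun r => ENNReal.ofReal r * f (mb g ξ)) h6.symm
  · intro g h ξ hξ
    have hm : mb h ξ * (h 1 0 * ξ + h 1 1) = h 0 0 * ξ + h 0 1 := div_mul_cancel₀ _ hξ
    have hJ : (g * h) 1 0 * ξ + (g * h) 1 1 =
        (g 1 0 * mb h ξ + g 1 1) * (h 1 0 * ξ + h 1 1) := by
      rw [chv_mul, chv_mul]
      linear_combination -(g 1 0) * hm
    have hN : (g * h) 0 0 * ξ + (g * h) 0 1 =
        (g 0 0 * mb h ξ + g 0 1) * (h 1 0 * ξ + h 1 1) := by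
      rw [chv_mul, chv_mul]
      linear_combination -(g 0 0) * hm
    refine ⟨?_, hJ⟩
    have e1 : mb (g * h) ξ = ((g * h) 0 0 * ξ + (g * h) 0 1) / ((g * h) 1 0 * ξ + (g * h) 1 1) := rfl
    have e2 : mb g (mb h ξ) = (g 0 0 * mb h ξ + g 0 1) / (g 1 0 * mb h ξ + g 1 1) := rfl
    rw [e1, e2, hN, hJ, mul_div_mul_right _ _ hξ]
  · intro ξ
    simp [mb]
  · intro g
    unfold mb
    fun_prop

end Pool.Agent.Helper94.QA
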